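import Pool.Agent.Y690.JP.Stm
import Pool.Agent.Y690.PP.Ker

/-!
Job JP-KER: expansion of products of kernels.
-/

set_option autoImplicit false
set_option linter.all false

open Finset

namespace Pool.Agent.Y529.JP

open Pool.Agent.Y690.PP Pool.Agent.Y690.JP

abbrev F2 := ZMod 2 × ZMod 2

section gen

variable {P : Type} {N : P → ℕ} {s : P → P → ℝ} {t : P → ℝ}

theorem pm_nat {x : ℝ} (hx : x = 1 ∨ x = -1) (n : ℕ) : x ^ n = x ^ ((n : ZMod 2)).val := by
  have h2 : x ^ 2 = 1 := by rcases hx with rfl | rfl <;> norm_num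
  rw [ZMod.val_natCast]
  conv_lhs => rw [← Nat.mod_add_div n 2, pow_add, pow_mul, h2, one_pow, mul_one]

theorem pm_eq {x : ℝ} (hx : x = 1 ∨ x = -1) {m n : ℕ} (h : (m : ZMod 2) = n) :
    x ^ m = x ^ n := by
  rw [pm_nat hx m, pm_nat hx n, h]

theorem pm_comb {x : ℝ} (hx : x = 1 ∨ x = -1) (a b c d : ZMod 2) :
    x ^ ((b + a).val * c.val) * x ^ ((a + b).val * d.val) = x ^ ((a + b) * (c + d)).val := by
  rw [← pow_add]
  refine pm_eq hx ?_
  push_cast
  rw [ZMod.natCast_zmod_val, ZMod.natCast_zmod_val, ZMod.natCast_zmod_val, ZMod.natCast_zmod_val,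
    ZMod.natCast_zmod_val]
  ring

/-- the expansion over a parametrized set -/
theorem XX_par (hb : Basic N s t) (S : Finset P) {ι : Type} [Fintype ι] [DecidableEq ι]
    (φ : ι ≃ S) : (XX s t S : ℝ) = ∑ μ : ι → F2, ∏ p, ((1 / 2 : ℝ) *
      t (φ p) ^ ((μ p).1.val * (μ p).2.val) *
        ∏ q, s (φ q) (φ p) ^ (((μ q).1 + (μ p).1).val * (μ p).2.val)) := by
  classical
  rw [XX_exp hb, ← (Equiv.arrowCongr φ (Equiv.refl F2)).sum_comp]
  refine Finset.sum_congr rfl fun μ _ => ?_
  rw [← φ.prod_comp]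
  refine Finset.prod_congr rfl fun p _ => ?_
  rw [← φ.prod_comp]
  have e : ∀ q, (Equiv.arrowCongr φ (Equiv.refl F2)) μ (φ q) = μ q := by
    intro q
    show μ (φ.symm (φ q)) = μ q
    rw [Equiv.symm_apply_apply]
  simp only [e]

/-- the expansion over two disjoint sets -/
theorem XX_two (hb : Basic N s t) (S : Finset P) {ι κ : Type} [Fintype ι] [DecidableEq ι]
    [Fintype κ] [DecidableEq κ] (φ : ι ⊕ κ ≃ S) : (XX s t S : ℝ) = ∑ β : κ → F2,
      (∏ b, ((1 / 2 : ℝ) * t (φ (Sum.inr b)) ^ ((β b).1.val * (β b).2.val) *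
        ∏ b', s (φ (Sum.inr b')) (φ (Sum.inr b)) ^
          (((β b').1 + (β b).1).val * (β b).2.val))) *
      ∑ l : ι → F2, ∏ p, ((1 / 2 : ℝ) * (t (φ (Sum.inl p)) ^ ((l p).1.val * (l p).2.val) *
        ∏ b, s (φ (Sum.inr b)) (φ (Sum.inl p)) ^
          (((l p).1 + (β b).1) * ((l p).2 + (β b).2)).val) *
        ∏ q, s (φ (Sum.inl q)) (φ (Sum.inl p)) ^
          (((l q).1 + (l p).1).val * (l p).2.val)) := by
  rw [XX_par hb S φ, ← (Equiv.sumArrowEquivProdArrow ι κ F2).symm.sum_comp,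
    Fintype.sum_prod_type_right]
  refine Finset.sum_congr rfl fun β _ => ?_
  rw [Finset.mul_sum]
  refine Finset.sum_congr rfl fun l _ => ?_
  have e1 : ∀ p, (Equiv.sumArrowEquivProdArrow ι κ F2).symm (l, β) (Sum.inl p) = l p :=
    fun _ => rfl
  have e2 : ∀ b, (Equiv.sumArrowEquivProdArrow ι κ F2).symm (l, β) (Sum.inr b) = β b :=
    fun _ => rfl
  have hne : ∀ p b, (φ (Sum.inr b) : P) ≠ (φ (Sum.inl p) : P) := by
    intro p b h
    have h1 : (Sum.inr b : ι ⊕ κ) = Sum.inl p := φ.injective (Subtype.ext h)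
    exact absurd h1 (by simp)
  have key : (∏ p, ∏ b, s (φ (Sum.inr b)) (φ (Sum.inl p)) ^
        (((β b).1 + (l p).1).val * (l p).2.val)) *
      (∏ b, ∏ q, s (φ (Sum.inl q)) (φ (Sum.inr b)) ^ (((l q).1 + (β b).1).val * (β b).2.val)) =
      ∏ p, ∏ b, s (φ (Sum.inr b)) (φ (Sum.inl p)) ^
          (((l p).1 + (β b).1) * ((l p).2 + (β b).2)).val := by
    rw [Finset.prod_comm (f := fun b q => s (φ (Sum.inl q)) (φ (Sum.inr b)) ^
      (((l q).1 + (β b).1).val * (β b).2.val)), ← Finset.prod_mul_distrib]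
    refine Finset.prod_congr rfl fun p _ => ?_
    rw [← Finset.prod_mul_distrib]
    refine Finset.prod_congr rfl fun b _ => ?_
    rw [hb.s_symm (φ (Sum.inl p)) (φ (Sum.inr b))]
    exact pm_comb (hb.s_val _ _ (hne p b)) _ _ _ _
  simp only [Fintype.prod_sum_type, e1, e2, Finset.prod_mul_distrib]
  rw [← key]
  ring

theorem avg {Q0 : Type} [Fintype Q0] [DecidableEq Q0] (p : Q0 → Prop) [DecidablePred p]
    (G : ({x // p x} → F2) → ℝ) : ∑ β : Q0 → F2, G (fun b => β b.1) =
      4 ^ Fintype.card {x // ¬ p x} * ∑ β, G β := by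
  rw [← (Equiv.piEquivPiSubtypeProd p (fun _ => F2)).symm.sum_comp, Fintype.sum_prod_type,
    Finset.mul_sum]
  refine Finset.sum_congr rfl fun β _ => ?_
  have e : ∀ γ : {x // ¬ p x} → F2, (fun b : {x // p x} =>
      (Equiv.piEquivPiSubtypeProd p (fun _ => F2)).symm (β, γ) b.1) = β := by
    intro γ
    funext b
    simp [Equiv.piEquivPiSubtypeProd, b.2]
  simp only [e]
  rw [Finset.sum_const, Finset.card_univ, nsmul_eq_mul]
  congr 1
  rw [Fintype.card_fun]
  have : Fintype.card F2 = 4 := rfl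
  rw [this]
  push_cast
  rfl

theorem pfill {Q0 : Type} [Fintype Q0] [DecidableEq Q0] (p : Q0 → Prop) [DecidablePred p]
    (f : Q0 → ℝ) (c : ℝ) : ∏ b, (if p b then f b else c) =
      (∏ b : {x // p x}, f b.1) * c ^ Fintype.card {x // ¬ p x} := by
  rw [← Fintype.prod_subtype_mul_prod_subtype p (fun b => if p b then f b else c)]
  congr 1
  · exact Finset.prod_congr rfl fun b _ => if_pos b.2
  · rw [Finset.prod_congr rfl fun b _ => if_neg b.2, Finset.prod_const, Finset.card_univ]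

theorem pfill1 {Q0 : Type} [Fintype Q0] [DecidableEq Q0] (p : Q0 → Prop) [DecidablePred p]
    (f : Q0 → ℝ) : ∏ b, (if p b then f b else 1) = ∏ b : {x // p x}, f b.1 := by
  rw [pfill, one_pow, mul_one]

end gen

open Classical in
/-- the union as a disjoint sum -/
noncomputable def phi {Q B : Finset Pr} (hB : B ⊆ Q) (A : Finset (PQ Q)) :
    A ⊕ {b : Q // b.1 ∈ B} ≃ (A.map (emQ Q) ∪ B : Finset Pr) :=
  Equiv.ofBijective (fun x => match x with
    | Sum.inl p => ⟨p.1.1, Finset.mem_union_left _ (Finset.mem_map.2 ⟨p.1, p.2, rfl⟩)⟩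
    | Sum.inr b => ⟨b.1.1, Finset.mem_union_right _ b.2⟩) (by
    constructor
    · rintro (p | b) (q | c) h
      · have h1 : p.1.1 = q.1.1 := by
          have := congrArg (fun y : (A.map (emQ Q) ∪ B : Finset Pr) => (y.1 : Pr)) h
          exact this
        have h2 : p = q := Subtype.ext (Subtype.ext h1)
        rw [h2]
      · have h1 : p.1.1 = c.1.1 := by
          have := congrArg (fun y : (A.map (emQ Q) ∪ B : Finset Pr) => (y.1 : Pr)) h
          exact this
        exact absurd (h1 ▸ c.1.2) p.1.2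
      · have h1 : b.1.1 = q.1.1 := by
          have := congrArg (fun y : (A.map (emQ Q) ∪ B : Finset Pr) => (y.1 : Pr)) h
          exact this
        exact absurd (h1 ▸ b.1.2) q.1.2
      · have h1 : b.1.1 = c.1.1 := by
          have := congrArg (fun y : (A.map (emQ Q) ∪ B : Finset Pr) => (y.1 : Pr)) h
          exact this
        have h2 : b = c := Subtype.ext (Subtype.ext h1)
        rw [h2]
    · rintro ⟨x, hx⟩
      rcases Finset.mem_union.1 hx with h | h
      · obtain ⟨p, hp, rfl⟩ := Finset.mem_map.1 h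
        exact ⟨Sum.inl ⟨p, hp⟩, rfl⟩
      · exact ⟨Sum.inr ⟨⟨x, hB h⟩, h⟩, rfl⟩)

/-- the factor of one kernel at the small primes -/
noncomputable def c1 {Q : Finset Pr} (P : Q → Prop) [DecidablePred P] (β : Q → F2) : ℝ :=
  ∏ b : Q, if P b then
    (1 / 2 : ℝ) * gt b.1 ^ ((β b).1.val * (β b).2.val) *
      ∏ b' : Q, (if P b' then gs b'.1 b.1 ^ (((β b').1 + (β b).1).val * (β b).2.val) else 1)
    else 1 / 4

/-- the factor of one kernel at a large prime -/
noncomputable def d1 {Q : Finset Pr} (P : Q → Prop) [DecidablePred P] (β : Q → F2) (p : PQ Q)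
    (u : F2) : ℝ :=
  (1 / 2 : ℝ) * (gt p.1 ^ (u.1.val * u.2.val) *
    ∏ b : Q, (if P b then gs b.1 p.1 ^ ((u.1 + (β b).1) * (u.2 + (β b).2)).val else 1))

open Classical in
theorem one (hb : Basic gN gs gt) {Q B : Finset Pr} (hB : B ⊆ Q) (A : Finset (PQ Q)) :
    (XX gs gt (A.map (emQ Q) ∪ B) : ℝ) = ∑ β : Q → F2, c1 (fun b : Q => b.1 ∈ B) β *
      ∑ l : A → F2, ∏ p : A, (d1 (fun b : Q => b.1 ∈ B) β p (l p) *
        ∏ q : A, sQ Q q p ^ (((l q).1 + (l p).1).val * (l p).2.val)) := by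
  rw [XX_two hb _ (phi hB A)]
  have h1 := avg (fun b : Q => b.1 ∈ B) (fun β : {b : Q // b.1 ∈ B} → F2 =>
      (∏ b, ((1 / 2 : ℝ) * gt ((phi hB A) (Sum.inr b)) ^ ((β b).1.val * (β b).2.val) *
        ∏ b', gs ((phi hB A) (Sum.inr b')) ((phi hB A) (Sum.inr b)) ^
          (((β b').1 + (β b).1).val * (β b).2.val))) *
      ∑ l : A → F2, ∏ p, ((1 / 2 : ℝ) * (gt ((phi hB A) (Sum.inl p)) ^
        ((l p).1.val * (l p).2.val) *
        ∏ b, gs ((phi hB A) (Sum.inr b)) ((phi hB A) (Sum.inl p)) ^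
          (((l p).1 + (β b).1) * ((l p).2 + (β b).2)).val) *
        ∏ q, gs ((phi hB A) (Sum.inl q)) ((phi hB A) (Sum.inl p)) ^
          (((l q).1 + (l p).1).val * (l p).2.val)))
  have h4 : (4 : ℝ) ^ Fintype.card {b : Q // ¬ b.1 ∈ B} ≠ 0 := by positivity
  rw [← mul_right_inj' h4, ← h1, Finset.mul_sum]
  refine Finset.sum_congr rfl fun β _ => ?_
  have hc : (4 : ℝ) ^ Fintype.card {b : Q // ¬ b.1 ∈ B} * c1 (fun b : Q => b.1 ∈ B) β =
      ∏ b : {b : Q // b.1 ∈ B}, ((1 / 2 : ℝ) * gt b.1.1 ^ ((β b.1).1.val * (β b.1).2.val) *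
        ∏ b' : {b : Q // b.1 ∈ B}, gs b'.1.1 b.1.1 ^
          (((β b'.1).1 + (β b.1).1).val * (β b.1).2.val)) := by
    unfold c1
    rw [pfill, mul_comm, mul_assoc, ← mul_pow, show (1 / 4 * 4 : ℝ) = 1 by norm_num, one_pow,
      mul_one]
    refine Finset.prod_congr rfl fun b _ => ?_
    rw [pfill1]
  rw [← mul_assoc, hc]
  congr 1
  refine Finset.sum_congr rfl fun l _ => Finset.prod_congr rfl fun p _ => ?_
  unfold d1
  rw [pfill1]
  rfl

open Classical in
theorem t_KER : SKER := by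
  intro hb Q K B hB A
  have h1 : ∀ i, (XX gs gt (A.map (emQ Q) ∪ B i) : ℝ) = _ := fun i => one hb (hB i) A
  rw [Finset.prod_congr rfl fun i _ => h1 i, Fintype.prod_sum]
  refine Finset.sum_congr rfl fun β _ => ?_
  rw [Finset.prod_mul_distrib]
  congr 1
  · unfold cst c1
    refine Finset.prod_congr rfl fun i _ => Finset.prod_congr rfl fun b _ => ?_
    have e : ∀ b : Q, (i ∈ JB B b) = (b.1 ∈ B i) := by
      intro b
      unfold JB
      rw [Finset.mem_filter]
      simp
    simp only [e]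
  · rw [Fintype.prod_sum, ← (Equiv.piComm (fun (_ : A) (_ : Fin K) => F2)).sum_comp]
    refine Finset.sum_congr rfl fun l _ => ?_
    rw [Finset.prod_comm]
    refine Finset.prod_congr rfl fun p _ => ?_
    rw [Finset.prod_mul_distrib]
    congr 1
    · unfold d1
      rw [Finset.prod_mul_distrib, Finset.prod_const, Finset.card_univ, Fintype.card_fin]
      congr 1
      unfold chQ
      rw [Finset.prod_mul_distrib]
      congr 1
      · rw [Finset.prod_pow_eq_pow_sum]
        refine pm_eq (hb.t_val _) ?_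
        unfold tt QQ
        push_cast
        rw [ZMod.natCast_zmod_val]
        refine Finset.sum_congr rfl fun j _ => ?_
        rw [ZMod.natCast_zmod_val, ZMod.natCast_zmod_val]
        rfl
      · rw [Finset.prod_comm]
        refine Finset.prod_congr rfl fun b _ => ?_
        have hne : b.1 ≠ p.1.1 := fun h => p.1.2 (h ▸ b.2)
        have hv := hb.s_val _ _ hne
        have e2 : ∀ i : Fin K, (if b.1 ∈ B i then gs b.1 p.1.1 ^
            ((((Equiv.piComm (fun (_ : A) (_ : Fin K) => F2)) l i p).1 + (β i b).1) *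
              (((Equiv.piComm (fun (_ : A) (_ : Fin K) => F2)) l i p).2 + (β i b).2)).val else 1) =
            gs b.1 p.1.1 ^ (if b.1 ∈ B i then (((l p i).1 + (β i b).1) *
              ((l p i).2 + (β i b).2)).val else 0) := by
          intro i
          split_ifs
          · rfl
          · rw [pow_zero]
        rw [Finset.prod_congr rfl fun i _ => e2 i, Finset.prod_pow_eq_pow_sum]
        refine pm_eq hv ?_
        unfold tt JB
        push_cast
        rw [ZMod.natCast_zmod_val, Finset.sum_filter]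
        refine Finset.sum_congr rfl fun j _ => ?_
        split_ifs
        · rw [ZMod.natCast_zmod_val]
        · rfl
    · rw [Finset.prod_comm]
      refine Finset.prod_congr rfl fun q _ => ?_
      rw [Finset.prod_pow_eq_pow_sum]
      rfl

end Pool.Agent.Y529.JP
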